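import Pool.Agent.H688R2.RInd.Pos

set_option autoImplicit false

/-!
# Constant-factor approximation of `r`-independent sets in continuous graphs

Definitions: `Pool/Agent/H688R2/RInd/Defs.lean` and `Pool/Agent/NPC/Defs.lean`.
-/

namespace Pool.Agent.Results.MP_10a207_lc.Threshold

open Pool.Agent.H688R2.RInd Pool.Agent.NPC

/-- The threshold for constant-factor approximation of `r`-independent sets is `r = 1`:
for `1/2 < r ≤ 1` there is a polynomial-time algorithm with performance guarantee `1/3`; for every
`r > 1` and every `c > 0`, a polynomial-time algorithm with performance guarantee `c`, even if it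
works only on graphs without isolated vertices, yields a polynomial-time algorithm with performance
guarantee `c` for Maximum Independent Set. Hence, if Maximum Independent Set has no polynomial-time
constant-factor approximation algorithm, then for every `r > 1` neither has the maximum
`r`-independent set problem. -/
theorem result :
    (∀ r : ℝ, 1 / 2 < r → r ≤ 1 → RApprox (fun _ => True) r (1 / 3)) ∧
    (∀ r c : ℝ, 1 < r → 0 < c → RApprox NoIsolated r c → MISApprox c) ∧
    ((∀ c : ℝ, 0 < c → ¬ MISApprox c) → ∀ r : ℝ, 1 < r → ∀ c : ℝ, 0 < c →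
      ¬ RApprox NoIsolated r c ∧ ¬ RApprox (fun _ => True) r c) := by
  refine ⟨fun r h1 h2 => r_approx h1 h2, fun r c hr _ h => mis_of_r hr h, fun H r hr c hc => ?_⟩
  have h1 : ¬ RApprox NoIsolated r c := fun h => H c hc (mis_of_r hr h)
  refine ⟨h1, fun h => h1 ?_⟩
  obtain ⟨F, hF, hs⟩ := h
  exact ⟨F, hF, fun A _ => hs A trivial⟩

end Pool.Agent.Results.MP_10a207_lc.Threshold
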